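import Pool.Agent.Helper87.TC.Lib

/-!
Module CLIFT of `Pool.Agent.Helper87.TC`: curves outside the boundary lift.
-/

set_option autoImplicit false

namespace Pool.Agent.Helper87.TC

open MvPolynomial Pool.Agent.Helper48.VMRT Pool.Agent.Helper87.VM

/-- A multiple of a tensor cube is a tensor cube. -/
theorem clift_cube {κ : Type} (a : ℂ) (v : κ → ℂ) :
    ∃ v' : κ → ℂ, ∀ I : Fin 3 → κ, a * ∏ j, v (I j) = ∏ j, v' (I j) := by
  obtain ⟨b, hb⟩ := IsAlgClosed.exists_pow_nat_eq a (n := 3) (by norm_num)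
  refine ⟨fun i => b * v i, fun I => ?_⟩
  rw [Finset.prod_mul_distrib, Finset.prod_const, Finset.card_univ, Fintype.card_fin, hb]

/-- A vector whose tensor cube is a multiple of the tensor cube of another one. -/
theorem clift_prop {κ : Type} (a : ℂ) (x x' : κ → ℂ) (hx : x ≠ 0)
    (h : ∀ I : Fin 3 → κ, ∏ j, x (I j) = a * ∏ j, x' (I j)) : ∃ b : ℂ, x = b • x' := by
  obtain ⟨i₀, hi⟩ := Function.ne_iff.1 hx
  have hi' : x i₀ ≠ 0 := hi
  refine ⟨a * x' i₀ ^ 2 / x i₀ ^ 2, funext fun i => ?_⟩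
  have h1 := h ![i, i₀, i₀]
  simp only [Fin.prod_univ_three, Matrix.cons_val_zero, Matrix.cons_val_one,
    Matrix.cons_val] at h1
  rw [Pi.smul_apply, smul_eq_mul]
  field_simp
  linear_combination h1

/-- Values at the origin. -/
theorem clift_zero {κ : Type} (d : ℕ) (c : κ → Polynomial ℂ) (s t : ℂ) (h : (s, t) = (0, 0)) :
    hevv d c s t = (0 : ℂ) ^ d • hevv d c 1 0 := by
  obtain ⟨h1, h2⟩ := Prod.mk.inj h
  funext i
  have h3 := hev_smul_smul d (c i) 0 1 0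
  rw [zero_mul, zero_mul] at h3
  rw [h1, h2]
  exact h3

/-- If the value of a vector of forms outside the origin is decomposable, it always is. -/
theorem clift_dec {κ₁ κ₂ : Type} (d : ℕ) (u : κ₁ × κ₂ → Polynomial ℂ)
    (h : ∀ s t : ℂ, (s, t) ≠ (0, 0) → ∃ (x : κ₁ → ℂ) (y : κ₂ → ℂ), hevv d u s t = seg x y) :
    ∀ s t : ℂ, ∃ (x : κ₁ → ℂ) (y : κ₂ → ℂ), hevv d u s t = seg x y := by
  intro s t
  by_cases hst : (s, t) = (0, 0)
  · obtain ⟨x, y, hxy⟩ := h 1 0 (by simp)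
    exact ⟨(0 : ℂ) ^ d • x, y, by rw [clift_zero d u s t hst, hxy, seg_smul_left]⟩
  · exact h s t hst

/-- If the value of a vector of forms outside the origin is a tensor cube, it always is. -/
theorem clift_pow {κ : Type} (d : ℕ) (u : (Fin 3 → κ) → Polynomial ℂ)
    (h : ∀ s t : ℂ, (s, t) ≠ (0, 0) → ∃ v : κ → ℂ, ∀ I, hevv d u s t I = ∏ j, v (I j)) :
    ∀ s t : ℂ, ∃ v : κ → ℂ, ∀ I, hevv d u s t I = ∏ j, v (I j) := by
  intro s t
  by_cases hst : (s, t) = (0, 0)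
  · obtain ⟨v, hv⟩ := h 1 0 (by simp)
    obtain ⟨v', hv'⟩ := clift_cube ((0 : ℂ) ^ d) v
    refine ⟨v', fun I => ?_⟩
    rw [clift_zero d u s t hst, Pi.smul_apply, smul_eq_mul, hv, hv']
  · exact h s t hst

/-- Values of a vector of products. -/
theorem clift_mul {κ₁ κ₂ : Type} {d d₁ d₂ : ℕ} (hd : d₁ + d₂ = d) {P : κ₁ → Polynomial ℂ}
    {Q : κ₂ → Polynomial ℂ} (hP : Mor d₁ P) (hQ : Mor d₂ Q) (u : κ₁ × κ₂ → Polynomial ℂ)
    (hu : ∀ i j, u (i, j) = P i * Q j) (s t : ℂ) :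
    hevv d u s t = seg (hevv d₁ P s t) (hevv d₂ Q s t) := by
  funext a
  obtain ⟨i, j⟩ := a
  subst hd
  change hev (d₁ + d₂) (u (i, j)) s t = hev d₁ (P i) s t * hev d₂ (Q j) s t
  rw [hu, hev_mul (hP.deg i) (hQ.deg j)]

/-- Values of a vector of cubes. -/
theorem clift_prod {κ : Type} {d e : ℕ} (hd : d = 3 * e) {p : κ → Polynomial ℂ} (hp : Mor e p)
    (P : (Fin 3 → κ) → Polynomial ℂ) (hP : ∀ I, P I = ∏ j, p (I j)) (s t : ℂ) (I : Fin 3 → κ) :
    hevv d P s t I = ∏ j, hevv e p s t (I j) := by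
  have h1 := hev_prod (Finset.univ : Finset (Fin 3)) (e := e) (p := fun j => p (I j))
    (fun j _ => hp.deg (I j)) s t
  rw [Finset.card_univ, Fintype.card_fin, mul_comm e 3, ← hd, ← hP I] at h1
  exact h1

theorem clift_prodseg {κ : Type} (x : κ → ℂ) (I : Fin 3 → κ) :
    ∏ j, x (I j) = x (I 0) * x (I 1) * x (I 2) := by
  rw [Fin.prod_univ_three]

theorem clift_cube_ne {κ : Type} {x : κ → ℂ} (hx : x ≠ 0) :
    (fun I : Fin 3 → κ => ∏ j, x (I j)) ≠ 0 := by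
  obtain ⟨i, hi⟩ := Function.ne_iff.1 hx
  intro h
  have h1 := congrFun h (fun _ => i)
  simp only [Finset.prod_const, Finset.card_univ, Fintype.card_fin, Pi.zero_apply] at h1
  exact hi (eq_zero_of_pow_eq_zero h1)

theorem st_CLIFT (h1 : ST_PTS) (h2 : ST_PRIM) (h3 : VM.ST_FAC1) (h4 : VM.ST_FAC2) :
    ST_CLIFT := by
  intro κα κβ _ _ S hS e c hc hX hB
  -- points
  have hpt : ∀ s t : ℂ, (s, t) ≠ (0, 0) → ∃ y : κα ⊕ κβ → ℂ, pl y ≠ 0 ∧ qr y ≠ 0 ∧
      hevv e c s t = Theta (pl y) (qr y) 1 1 := by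
    intro s t hst
    obtain ⟨y, _, hy1, hy2, hy3⟩ := (h1 κα κβ S hS).1 _ (hX s t) (hB s t hst)
    exact ⟨y, hy1, hy2, by rw [hy3, ev_Psi]⟩
  -- the first part
  have huv : ∀ s t : ℂ, ∀ y : κα ⊕ κβ → ℂ, hevv e c s t = Theta (pl y) (qr y) 1 1 →
      hevv e (fun a => c (Sum.inl a)) s t =
        seg (fun I : Fin 3 → κα => ∏ j, pl y (I j)) (qr y) := by
    intro s t y hy
    funext a
    obtain ⟨I, l⟩ := a
    have h5 := congrFun hy (Sum.inl (I, l))
    change hevv e c s t (Sum.inl (I, l)) = _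
    rw [h5]
    change 1 * (pl y (I 0) * pl y (I 1) * pl y (I 2)) * qr y l = (∏ j, pl y (I j)) * qr y l
    rw [clift_prodseg, one_mul]
  have hvv : ∀ s t : ℂ, ∀ y : κα ⊕ κβ → ℂ, hevv e c s t = Theta (pl y) (qr y) 1 1 →
      hevv e (fun a => c (Sum.inr a)) s t =
        seg (pl y) (fun I : Fin 3 → κβ => ∏ j, qr y (I j)) := by
    intro s t y hy
    funext a
    obtain ⟨i, J⟩ := a
    have h5 := congrFun hy (Sum.inr (i, J))
    change hevv e c s t (Sum.inr (i, J)) = _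
    rw [h5]
    change 1 * pl y i * (qr y (J 0) * qr y (J 1) * qr y (J 2)) = pl y i * (∏ j, qr y (J j))
    rw [clift_prodseg, one_mul]
  have hMu : Mor e (fun a : (Fin 3 → κα) × κβ => c (Sum.inl a)) := by
    refine ⟨fun a => hc.deg _, fun s t hst => ?_⟩
    obtain ⟨y, hy1, hy2, hy3⟩ := hpt s t hst
    rw [huv s t y hy3]
    exact seg_ne_zero (clift_cube_ne hy1) hy2
  have hMv : Mor e (fun a : κα × (Fin 3 → κβ) => c (Sum.inr a)) := by
    refine ⟨fun a => hc.deg _, fun s t hst => ?_⟩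
    obtain ⟨y, hy1, hy2, hy3⟩ := hpt s t hst
    rw [hvv s t y hy3]
    exact seg_ne_zero hy1 (clift_cube_ne hy2)
  classical
  obtain ⟨d₁, d₂, P, Q, hd, hP, hQ, hPQ⟩ := h3 (Fin 3 → κα) κβ e _ hMu
    (clift_dec e _ fun s t hst => by
      obtain ⟨y, hy1, hy2, hy3⟩ := hpt s t hst
      exact ⟨_, _, huv s t y hy3⟩)
  obtain ⟨d₁', d₂', P', Q', hd', hP', hQ', hPQ'⟩ := h3 κα (Fin 3 → κβ) e _ hMv
    (clift_dec e _ fun s t hst => by
      obtain ⟨y, hy1, hy2, hy3⟩ := hpt s t hst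
      exact ⟨_, _, hvv s t y hy3⟩)
  -- the factors are proportional to the expected ones
  have hfac : ∀ s t : ℂ, (s, t) ≠ (0, 0) → ∀ y : κα ⊕ κβ → ℂ, pl y ≠ 0 → qr y ≠ 0 →
      hevv e c s t = Theta (pl y) (qr y) 1 1 → ∃ a : ℂ, a ≠ 0 ∧
        (∀ I, hevv d₁ P s t I = a * ∏ j, pl y (I j)) ∧ hevv d₂ Q s t = a⁻¹ • qr y := by
    intro s t hst y hy1 hy2 hy3
    have h5 := huv s t y hy3
    rw [clift_mul hd hP hQ _ hPQ s t] at h5
    obtain ⟨a, ha, h6, h7⟩ := seg_eq_seg h5.symm (seg_ne_zero (clift_cube_ne hy1) hy2)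
    exact ⟨a, ha, fun I => by rw [h6, Pi.smul_apply, smul_eq_mul], h7⟩
  have hfac' : ∀ s t : ℂ, (s, t) ≠ (0, 0) → ∀ y : κα ⊕ κβ → ℂ, pl y ≠ 0 → qr y ≠ 0 →
      hevv e c s t = Theta (pl y) (qr y) 1 1 → ∃ a : ℂ, a ≠ 0 ∧
        hevv d₁' P' s t = a • pl y ∧ ∀ J, hevv d₂' Q' s t J = a⁻¹ * ∏ j, qr y (J j) := by
    intro s t hst y hy1 hy2 hy3
    have h5 := hvv s t y hy3
    rw [clift_mul hd' hP' hQ' _ hPQ' s t] at h5
    obtain ⟨a, ha, h6, h7⟩ := seg_eq_seg h5.symm (seg_ne_zero hy1 (clift_cube_ne hy2))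
    exact ⟨a, ha, h6, fun I => by rw [h7, Pi.smul_apply, smul_eq_mul]⟩
  obtain ⟨e₁, p, he₁, hp, hPp⟩ := h4 κα 3 d₁ P (by norm_num) hP
    (clift_pow d₁ P fun s t hst => by
      obtain ⟨y, hy1, hy2, hy3⟩ := hpt s t hst
      obtain ⟨a, ha, h6, h7⟩ := hfac s t hst y hy1 hy2 hy3
      obtain ⟨v', hv'⟩ := clift_cube a (pl y)
      exact ⟨v', fun I => by rw [h6, hv']⟩)
  obtain ⟨e₂, q, he₂, hq, hQq⟩ := h4 κβ 3 d₂' Q' (by norm_num) hQ'
    (clift_pow d₂' Q' fun s t hst => by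
      obtain ⟨y, hy1, hy2, hy3⟩ := hpt s t hst
      obtain ⟨a, ha, h6, h7⟩ := hfac' s t hst y hy1 hy2 hy3
      obtain ⟨v', hv'⟩ := clift_cube a⁻¹ (qr y)
      exact ⟨v', fun I => by rw [h7, hv']⟩)
  -- proportionality
  have hmul : ∀ {κ : Type} (x y z : κ → ℂ) (a b : ℂ), y ≠ 0 → x = a • z → y = b • z →
      ∃ r : ℂ, x = r • y := by
    intro κ x y z a b hy hx hy'
    have hb : b ≠ 0 := by
      rintro rfl
      rw [zero_smul] at hy'
      exact hy hy'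
    refine ⟨a / b, ?_⟩
    rw [hx, hy', smul_smul, div_mul_cancel₀ a hb]
  obtain ⟨hE1, lam, hlam, hlam'⟩ := h2 κα d₁' e₁ P' p hP' hp (fun s t hst => by
    obtain ⟨y, hy1, hy2, hy3⟩ := hpt s t hst
    obtain ⟨a, ha, h6, h7⟩ := hfac s t hst y hy1 hy2 hy3
    obtain ⟨a', ha', h6', h7'⟩ := hfac' s t hst y hy1 hy2 hy3
    obtain ⟨b, hb⟩ := clift_prop a (hevv e₁ p s t) (pl y) (hp.ne s t hst) (fun I => by
      rw [← h6 I, clift_prod he₁ hp P hPp s t I])
    exact hmul _ _ _ _ _ (hp.ne s t hst) h6' hb)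
  obtain ⟨hE2, mu, hmu, hmu'⟩ := h2 κβ d₂ e₂ Q q hQ hq (fun s t hst => by
    obtain ⟨y, hy1, hy2, hy3⟩ := hpt s t hst
    obtain ⟨a, ha, h6, h7⟩ := hfac s t hst y hy1 hy2 hy3
    obtain ⟨a', ha', h6', h7'⟩ := hfac' s t hst y hy1 hy2 hy3
    obtain ⟨b, hb⟩ := clift_prop a'⁻¹ (hevv e₂ q s t) (qr y) (hq.ne s t hst) (fun I => by
      rw [← h7' I, clift_prod he₂ hq Q' hQq s t I])
    exact hmul _ _ _ _ _ (hq.ne s t hst) h7 hb)
  have hee : e₂ = e₁ := by omega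
  have he4 : e = 4 * e₁ := by omega
  subst hee
  -- the scalars
  obtain ⟨r, hr⟩ := IsAlgClosed.exists_pow_nat_eq (lam / mu) (n := 2) (by norm_num)
  have hr0 : r ≠ 0 := by
    rintro rfl
    rw [zero_pow (by norm_num)] at hr
    exact div_ne_zero hlam hmu hr.symm
  obtain ⟨x, hx⟩ := IsAlgClosed.exists_pow_nat_eq (mu / r) (n := 4) (by norm_num)
  have hx0 : x ≠ 0 := by
    rintro rfl
    rw [zero_pow (by norm_num)] at hx
    exact div_ne_zero hmu hr0 hx.symm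
  have hz0 : r * x ≠ 0 := mul_ne_zero hr0 hx0
  have hm1 : x ^ 3 * (r * x) = mu := by
    have : x ^ 3 * (r * x) = r * x ^ 4 := by ring
    rw [this, hx, mul_div_cancel₀ mu hr0]
  have hm2 : x * (r * x) ^ 3 = lam := by
    have : x * (r * x) ^ 3 = r ^ 2 * (x ^ 3 * (r * x)) := by ring
    rw [this, hm1, hr, div_mul_cancel₀ lam hmu]
  have hy : ∀ s t : ℂ, hevv e₂ (Sum.elim (fun i => Polynomial.C x * p i)
      (fun l => Polynomial.C (r * x) * q l) : κα ⊕ κβ → Polynomial ℂ) s t =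
      Sum.elim (x • hevv e₂ p s t) ((r * x) • hevv e₂ q s t) := by
    intro s t
    funext i
    rcases i with i | l
    · change hev e₂ (Polynomial.C x * p i) s t = x * hev e₂ (p i) s t
      rw [hev_C_mul]
    · change hev e₂ (Polynomial.C (r * x) * q l) s t = (r * x) * hev e₂ (q l) s t
      rw [hev_C_mul]
  have hcy : ∀ s t : ℂ, hevv e c s t = ev Psi (hevv e₂ (Sum.elim (fun i => Polynomial.C x * p i)
      (fun l => Polynomial.C (r * x) * q l) : κα ⊕ κβ → Polynomial ℂ) s t) := by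
    intro s t
    rw [hy s t, ev_Psi_elim, Theta_smul_left, Theta_smul_right]
    funext a
    rcases a with a | a
    · obtain ⟨I, l⟩ := a
      have h5 := congrFun (clift_mul hd hP hQ (fun a => c (Sum.inl a)) hPQ s t) (I, l)
      change hevv e (fun a => c (Sum.inl a)) s t (I, l) = _
      rw [h5]
      change hevv d₁ P s t I * hevv d₂ Q s t l = _
      rw [clift_prod he₁ hp P hPp s t I, clift_prodseg]
      have h6 : hevv d₂ Q s t l = mu * hevv e₂ q s t l := by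
        change hev d₂ (Q l) s t = mu * hev e₂ (q l) s t
        rw [hmu' l, hev_C_mul, hE2]
      rw [h6]
      simp only [Theta, Sum.elim_inl]
      rw [← hm1]
      ring
    · obtain ⟨i, J⟩ := a
      have h5 := congrFun (clift_mul hd' hP' hQ' (fun a => c (Sum.inr a)) hPQ' s t) (i, J)
      change hevv e (fun a => c (Sum.inr a)) s t (i, J) = _
      rw [h5]
      change hevv d₁' P' s t i * hevv d₂' Q' s t J = _
      rw [clift_prod he₂ hq Q' hQq s t J, clift_prodseg]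
      have h6 : hevv d₁' P' s t i = lam * hevv e₂ p s t i := by
        change hev d₁' (P' i) s t = lam * hev e₂ (p i) s t
        rw [hlam' i, hev_C_mul, hE1]
      rw [h6]
      simp only [Theta, Sum.elim_inr]
      rw [← hm2]
      ring
  have hSmem : ∀ s t : ℂ, (s, t) ≠ (0, 0) → hevv e₂ (Sum.elim (fun i => Polynomial.C x * p i)
      (fun l => Polynomial.C (r * x) * q l) : κα ⊕ κβ → Polynomial ℂ) s t ∈ S := by
    intro s t hst
    refine (h1 κα κβ S hS).2 _ ?_ ?_ ?_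
    · rw [hy s t, pl_elim]
      exact smul_ne_zero hx0 (hp.ne s t hst)
    · rw [hy s t, qr_elim]
      exact smul_ne_zero hz0 (hq.ne s t hst)
    · rw [← hcy s t]
      exact hX s t
  refine ⟨e₂, Sum.elim (fun i => Polynomial.C x * p i) (fun l => Polynomial.C (r * x) * q l),
    he4, ⟨?_, ?_⟩, ?_, hcy⟩
  · rintro (i | l)
    · exact (Polynomial.natDegree_C_mul_le x (p i)).trans (hp.deg i)
    · exact (Polynomial.natDegree_C_mul_le (r * x) (q l)).trans (hq.deg l)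
  · intro s t hst h0
    have h5 : pl (hevv e₂ (Sum.elim (fun i => Polynomial.C x * p i)
      (fun l => Polynomial.C (r * x) * q l) : κα ⊕ κβ → Polynomial ℂ) s t) = 0 := by
      rw [h0]; rfl
    rw [hy s t, pl_elim] at h5
    exact smul_ne_zero hx0 (hp.ne s t hst) h5
  · intro s t
    by_cases hst : (s, t) = (0, 0)
    · rw [clift_zero _ _ s t hst]
      exact hS.cone _ _ (hSmem 1 0 (by simp))
    · exact hSmem s t hst

end Pool.Agent.Helper87.TC
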