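import Pool.Agent.Helper87.TC.Lib

/-!
vtc_mods DIMT: the tangent spaces have dimension at most `m` (submersion theorem).
-/

set_option autoImplicit false

namespace Pool.Agent.Helper87.TC

open MvPolynomial Pool.Agent.Helper48.VMRT Pool.Agent.Helper87.VM Filter Topology

/-- a subspace of dimension at least `m + 1` projects onto `m + 1` coordinates -/
theorem dimt_coord {w m : ℕ} (T : Submodule ℂ (Fin w → ℂ)) (h : m + 1 ≤ Module.finrank ℂ T) :
    ∃ e : Fin (m + 1) → Fin w, Function.Injective e ∧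
      ∀ β : Fin (m + 1) → ℂ, ∃ u ∈ T, ∀ k, u (e k) = β k := by
  classical
  obtain ⟨b, hb⟩ := exists_linearIndependent_of_le_finrank h
  let B : Matrix (Fin (m + 1)) (Fin w) ℂ := Matrix.of fun k i => (b k : Fin w → ℂ) i
  have hB : LinearIndependent ℂ B.row := hb.map' T.subtype (Submodule.ker_subtype T)
  have hr : B.rank = m + 1 := by rw [hB.rank_matrix, Fintype.card_fin]
  have hspan : Submodule.span ℂ (Set.range B.col) = ⊤ := by
    apply Submodule.eq_top_of_finrank_eq
    rw [← Matrix.rank_eq_finrank_span_cols, hr, Module.finrank_fin_fun]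
  obtain ⟨t, ht1, ht2, ht3⟩ := exists_linearIndependent ℂ (Set.range B.col)
  have hch : ∀ x : t, ∃ i, B.col i = x := fun x => ht1 x.2
  choose a ha using hch
  have hainj : Function.Injective a := by
    intro x y hxy
    apply Subtype.ext
    rw [← ha x, ← ha y, hxy]
  have hfin : Finite t := Finite.of_injective a hainj
  cases nonempty_fintype t
  have hcard : Fintype.card t = m + 1 := by
    rw [linearIndependent_iff_card_eq_finrank_span.1 ht3, Set.finrank, Subtype.range_coe, ht2,
      hspan, finrank_top, Module.finrank_fin_fun]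
  let E : Fin (m + 1) ≃ t := (Fintype.equivFinOfCardEq hcard).symm
  refine ⟨a ∘ E, hainj.comp E.injective, ?_⟩
  intro β
  let M : Matrix (Fin (m + 1)) (Fin (m + 1)) ℂ := Matrix.of fun l k => (b k : Fin w → ℂ) (a (E l))
  have hM : LinearIndependent ℂ M.row := by
    have h1 : M.row = (Subtype.val : t → (Fin (m + 1) → ℂ)) ∘ E := by
      funext l
      show _ = ((E l : t) : Fin (m + 1) → ℂ)
      rw [← ha (E l)]
      rfl
    rw [h1]
    exact ht3.comp _ E.injective
  have hMr : M.rank = m + 1 := by rw [hM.rank_matrix, Fintype.card_fin]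
  have hMt : LinearMap.range M.mulVecLin = ⊤ := by
    apply Submodule.eq_top_of_finrank_eq
    rw [Module.finrank_fin_fun]
    exact hMr
  obtain ⟨lam, hlam⟩ : β ∈ LinearMap.range M.mulVecLin := by rw [hMt]; trivial
  refine ⟨∑ k, lam k • (b k : Fin w → ℂ), Submodule.sum_mem _ fun k _ =>
    Submodule.smul_mem _ _ (b k).2, ?_⟩
  intro l
  rw [← hlam, Matrix.mulVecLin_apply, Matrix.mulVec, dotProduct, Finset.sum_apply]
  refine Finset.sum_congr rfl fun k _ => ?_
  rw [Pi.smul_apply, smul_eq_mul, mul_comm]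
  rfl

section

variable {κ : Type} [Fintype κ]

theorem dimt_analytic (p : MvPolynomial κ ℂ) (x : κ → ℂ) :
    AnalyticAt ℂ (fun y : κ → ℂ => eval y p) x := by
  have h := AnalyticAt.aeval_mvPolynomial (𝕜 := ℂ) (A := ℂ) (f := fun y : κ → ℂ => y) (z := x)
    (fun i => (ContinuousLinearMap.proj (R := ℂ) (φ := fun _ : κ => ℂ) i).analyticAt x) p
  exact h

theorem dimt_fderiv (p : MvPolynomial κ ℂ) (x v : κ → ℂ) :
    fderiv ℂ (fun y : κ → ℂ => eval y p) x v = dpol p x v := by
  have h1 : HasFDerivAt (fun y : κ → ℂ => eval y p) (fderiv ℂ (fun y : κ → ℂ => eval y p) x)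
      (x + (0 : ℂ) • v) := by
    rw [zero_smul, add_zero]
    exact (dimt_analytic p x).hasStrictFDerivAt.hasFDerivAt
  have h2 : HasDerivAt (fun s : ℂ => x + s • v) v 0 := by
    have := ((hasDerivAt_id (0 : ℂ)).smul_const v).const_add x
    simpa using this
  have h3 := h1.comp_hasDerivAt (0 : ℂ) h2
  have h4 := hasDerivAt_eval p (γ := fun s : ℂ => x + s • v) (γ' := v) (τ := 0)
    (fun i => by
      have h := ((hasDerivAt_id (0 : ℂ)).mul_const (v i)).const_add (x i)
      simpa using h)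
  have h5 := h3.unique h4
  rw [zero_smul, add_zero] at h5
  exact h5

end

theorem st_DIMT : ST_DIMT := by
  classical
  intro G ν _ _ w Z ρ a F ρν m hFD hRel z hz hz0
  by_contra hcon
  push Not at hcon
  obtain ⟨e, he, hsur⟩ := dimt_coord (TT F z) hcon
  obtain ⟨P, hP0, hP⟩ := hRel e he
  obtain ⟨c, I, hI, h, Q, hh, hQ⟩ := hFD.loc z hz hz0
  let x0 : Option (Fin w) → ℂ := ov 0 z
  have hx0 : ∀ j, eval x0 (F j) = 0 := (hFD.zero x0).2 ⟨rfl, hz⟩
  -- the map
  let Φ : (Option (Fin w) → ℂ) → (Fin c → ℂ) × (Fin (m + 1) → ℂ) :=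
    fun x => (fun i => eval x (F (I i)), fun k => x (some (e k)))
  let f1 : (Option (Fin w) → ℂ) →L[ℂ] (Fin c → ℂ) :=
    ContinuousLinearMap.pi fun i => fderiv ℂ (fun y : Option (Fin w) → ℂ => eval y (F (I i))) x0
  let f2 : (Option (Fin w) → ℂ) →L[ℂ] (Fin (m + 1) → ℂ) :=
    ContinuousLinearMap.pi fun k =>
      ContinuousLinearMap.proj (R := ℂ) (φ := fun _ : Option (Fin w) => ℂ) (some (e k))
  have hΦ : HasStrictFDerivAt Φ (f1.prod f2) x0 := by
    refine HasStrictFDerivAt.prodMk ?_ ?_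
    · exact hasStrictFDerivAt_pi.2 fun i => (dimt_analytic (F (I i)) x0).hasStrictFDerivAt
    · exact f2.hasStrictFDerivAt
  have hf1 : ∀ v i, f1 v i = dpol (F (I i)) x0 v := fun v i => dimt_fderiv (F (I i)) x0 v
  -- the first part is surjective
  have hs1 : ∀ α : Fin c → ℂ, ∃ v, ∀ i, dpol (F (I i)) x0 v = α i := by
    intro α
    let M : Matrix (Fin c) (Option (Fin w)) ℂ :=
      Matrix.of fun i o => eval (ov 0 z) (pderiv o (F (I i)))
    have hM : LinearIndependent ℂ M.row := hI
    have hMr : M.rank = c := by rw [hM.rank_matrix, Fintype.card_fin]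
    have hMt : LinearMap.range M.mulVecLin = ⊤ := by
      apply Submodule.eq_top_of_finrank_eq
      rw [Module.finrank_fin_fun]
      exact hMr
    obtain ⟨v, hv⟩ : α ∈ LinearMap.range M.mulVecLin := by rw [hMt]; trivial
    refine ⟨v, fun i => ?_⟩
    rw [← hv]
    rfl
  have hrange : (f1.prod f2).range = ⊤ := by
    rw [LinearMap.range_eq_top]
    rintro ⟨α, β⟩
    obtain ⟨v, hv⟩ := hs1 α
    obtain ⟨u, hu, huβ⟩ := hsur (fun k => β k - v (some (e k)))
    have hTT : ∀ j, dpol (F j) x0 (ov 0 u) = 0 := by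
      intro j
      have h1 := congrFun (LinearMap.mem_ker.1 hu) j
      have h2 : dpol (F j) x0 (ov 0 u) = ∑ i, eval (ov 0 z) (pderiv (some i) (F j)) * u i := by
        unfold dpol
        rw [Fintype.sum_option]
        simp [x0]
      rw [h2]
      exact h1
    refine ⟨v + ov 0 u, ?_⟩
    refine Prod.ext (funext fun i => ?_) (funext fun k => ?_)
    · show f1 (v + ov 0 u) i = α i
      rw [hf1, dpol_add_right, hv, hTT, add_zero]
    · show (v + ov 0 u) (some (e k)) = β k
      rw [Pi.add_apply, ov_some, huβ]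
      ring
  have hmap := hΦ.map_nhds_eq_of_surj hrange
  -- a neighbourhood
  have hU : {x : Option (Fin w) → ℂ | eval x h ≠ 0} ∈ 𝓝 x0 := by
    have h1 : ContinuousAt (fun x : Option (Fin w) → ℂ => eval x h) x0 :=
      (dimt_analytic h x0).continuousAt
    exact h1.eventually_ne hh
  have h1 : Φ '' {x : Option (Fin w) → ℂ | eval x h ≠ 0} ∈ 𝓝 (Φ x0) := by
    rw [← hmap]
    exact image_mem_map hU
  have hΦ0 : Φ x0 = (0, fun k => z (e k)) := by
    refine Prod.ext (funext fun i => ?_) rfl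
    exact hx0 (I i)
  rw [hΦ0] at h1
  have h2 : ∀ᶠ y : Fin (m + 1) → ℂ in 𝓝 (fun k => z (e k)),
      ((0 : Fin c → ℂ), y) ∈ Φ '' {x : Option (Fin w) → ℂ | eval x h ≠ 0} := by
    have h3 : ContinuousAt (fun y : Fin (m + 1) → ℂ => ((0 : Fin c → ℂ), y)) (fun k => z (e k)) :=
      (Continuous.prodMk_right _).continuousAt
    exact h3.eventually h1
  have h3 : ∀ᶠ y : Fin (m + 1) → ℂ in 𝓝 (fun k => z (e k)), eval y P = 0 := by
    filter_upwards [h2] with y hy
    obtain ⟨x, hx, hxy⟩ := hy
    have e1 : ∀ i, eval x (F (I i)) = 0 := fun i => congrFun (congrArg Prod.fst hxy) i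
    have e2 : ∀ k, x (some (e k)) = y k := fun k => congrFun (congrArg Prod.snd hxy) k
    have e3 : ∀ j, eval x (F j) = 0 := by
      intro j
      have h4 := congrArg (eval x) (hQ j)
      rw [map_mul, map_sum] at h4
      have h5 : ∑ i, eval x (Q j i * F (I i)) = 0 := by
        refine Finset.sum_eq_zero fun i _ => ?_
        rw [map_mul, e1, mul_zero]
      rw [h5, mul_eq_zero] at h4
      exact h4.resolve_left hx
    have e4 := ((hFD.zero x).1 e3).2
    have e5 := hP _ e4
    have e6 : (fun k => x (some (e k))) = y := funext e2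
    rw [← e6]
    exact e5
  apply hP0
  obtain ⟨ε, hε, hball⟩ := Metric.eventually_nhds_iff_ball.1 h3
  refine funext_set (fun k => Metric.ball (z (e k)) ε)
    (fun k => infinite_of_mem_nhds (z (e k)) (Metric.ball_mem_nhds _ hε)) ?_
  intro x hx
  rw [map_zero]
  apply hball
  rw [Metric.mem_ball, dist_pi_lt_iff hε]
  intro k
  exact Metric.mem_ball.1 (hx k (Set.mem_univ k))

end Pool.Agent.Helper87.TC
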