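import Pool.Agent.Helper87.TC.Lib

/-!
vtc_mods ELIM: the projection of a closed set which is a cone in the first group of variables is
closed (main theorem of elimination theory, by Nakayama's lemma).
-/

set_option autoImplicit false

namespace Pool.Agent.Helper87.TC

open MvPolynomial Pool.Agent.Helper48.VMRT Pool.Agent.Helper87.VM

section Elim

variable {κ₁ κ₂ : Type}

/-- the value at `(z, u)` of a polynomial in `z` with coefficients in the polynomials in `u` -/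
noncomputable def elimEv (z : κ₁ → ℂ) (u : κ₂ → ℂ) (F : MvPolynomial κ₁ (MvPolynomial κ₂ ℂ)) : ℂ :=
  eval z (map (eval u) F)

theorem elim_ev_sum (z : κ₁ → ℂ) (u : κ₂ → ℂ) (p : MvPolynomial (κ₁ ⊕ κ₂) ℂ) :
    elimEv z u (sumRingEquiv ℂ κ₁ κ₂ p) = eval (Sum.elim z u) p := by
  have h : ((eval z).comp (map (eval u))).comp
      ((sumRingEquiv ℂ κ₁ κ₂ : MvPolynomial (κ₁ ⊕ κ₂) ℂ ≃+* _) :
        MvPolynomial (κ₁ ⊕ κ₂) ℂ →+* MvPolynomial κ₁ (MvPolynomial κ₂ ℂ)) =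
      eval (Sum.elim z u) := by
    apply MvPolynomial.ringHom_ext
    · intro r
      simp
    · rintro (i | i)
      · simp
      · simp
  exact congrArg (fun φ : MvPolynomial (κ₁ ⊕ κ₂) ℂ →+* ℂ => φ p) h

/-- the ideal of `W` -/
noncomputable def elimI (W : Set (κ₁ ⊕ κ₂ → ℂ)) : Ideal (MvPolynomial κ₁ (MvPolynomial κ₂ ℂ)) where
  carrier := {F | ∀ z u, Sum.elim z u ∈ W → elimEv z u F = 0}
  add_mem' := by
    intro F G hF hG z u h
    have h1 := hF z u h
    have h2 := hG z u h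
    unfold elimEv at h1 h2 ⊢
    rw [map_add, map_add, h1, h2, add_zero]
  zero_mem' := by
    intro z u _
    simp [elimEv]
  smul_mem' := by
    intro F G hG z u h
    have h2 := hG z u h
    unfold elimEv at h2 ⊢
    rw [smul_eq_mul, map_mul, map_mul, h2, mul_zero]

theorem elim_mem_I {W : Set (κ₁ ⊕ κ₂ → ℂ)} {F : MvPolynomial κ₁ (MvPolynomial κ₂ ℂ)} :
    F ∈ elimI W ↔ ∀ z u, Sum.elim z u ∈ W → elimEv z u F = 0 := Iff.rfl

theorem elim_map_hc (u : κ₂ → ℂ) (n : ℕ) (F : MvPolynomial κ₁ (MvPolynomial κ₂ ℂ)) :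
    homogeneousComponent n (map (eval u) F) = map (eval u) (homogeneousComponent n F) := by
  ext d
  rw [coeff_homogeneousComponent, coeff_map, coeff_map, coeff_homogeneousComponent]
  split_ifs
  · rfl
  · rw [map_zero]

/-- the ideal is homogeneous -/
theorem elim_hc {W : Set (κ₁ ⊕ κ₂ → ℂ)}
    (hc : ∀ (a : ℂ) (z : κ₁ → ℂ) (u : κ₂ → ℂ), Sum.elim z u ∈ W → Sum.elim (a • z) u ∈ W)
    {F : MvPolynomial κ₁ (MvPolynomial κ₂ ℂ)} (hF : F ∈ elimI W) (n : ℕ) :
    homogeneousComponent n F ∈ elimI W := by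
  intro z u hzu
  have h1 : map (eval u) F ∈ vanishingIdeal ℂ {z : κ₁ → ℂ | Sum.elim z u ∈ W} := by
    rw [mem_vI]
    intro x hx
    exact hF x u hx
  have h2 := homogeneousComponent_mem_vI (S := {z : κ₁ → ℂ | Sum.elim z u ∈ W})
    (fun a x hx => hc a x u hx) h1 n
  rw [mem_vI] at h2
  have h3 := h2 z hzu
  rw [elim_map_hc] at h3
  exact h3

/-- the forms of degree `D` -/
noncomputable def elimN (κ₁ κ₂ : Type) (D : ℕ) :
    Submodule (MvPolynomial κ₂ ℂ) (MvPolynomial κ₁ (MvPolynomial κ₂ ℂ)) :=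
  Submodule.span _ ((fun m : κ₁ →₀ ℕ => monomial m 1) '' {m | m.degree = D})

theorem elim_N_fg [Fintype κ₁] (D : ℕ) : (elimN κ₁ κ₂ D).FG := by
  refine ⟨(((Finsupp.finite_of_degree_eq D).image
    (fun m : κ₁ →₀ ℕ => (monomial m 1 : MvPolynomial κ₁ (MvPolynomial κ₂ ℂ)))).toFinset), ?_⟩
  rw [Set.Finite.coe_toFinset]
  rfl

theorem elim_hc_mem_N (D : ℕ) (F : MvPolynomial κ₁ (MvPolynomial κ₂ ℂ)) :
    homogeneousComponent D F ∈ elimN κ₁ κ₂ D := by
  rw [homogeneousComponent_apply]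
  refine Submodule.sum_mem _ fun d hd => ?_
  rw [Finset.mem_filter] at hd
  have h1 : (monomial d (coeff d F) : MvPolynomial κ₁ (MvPolynomial κ₂ ℂ)) =
      coeff d F • monomial d 1 := by
    rw [smul_monomial, smul_eq_mul, mul_one]
  rw [h1]
  exact Submodule.smul_mem _ _ (Submodule.subset_span ⟨d, hd.2, rfl⟩)

/-- Nullstellensatz for the fibre and Nakayama's lemma -/
theorem elim_nak [Fintype κ₁] {W : Set (κ₁ ⊕ κ₂ → ℂ)} (hW : ZClosed W)
    (hc : ∀ (a : ℂ) (z : κ₁ → ℂ) (u : κ₂ → ℂ), Sum.elim z u ∈ W → Sum.elim (a • z) u ∈ W)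
    (u₀ : κ₂ → ℂ) (h0 : ∀ z : κ₁ → ℂ, Sum.elim z u₀ ∈ W → z = 0) :
    ∃ (D : ℕ) (g : MvPolynomial κ₂ ℂ), eval u₀ g = 1 ∧
      ∀ i : κ₁, g • (X i ^ D : MvPolynomial κ₁ (MvPolynomial κ₂ ℂ)) ∈ elimI W := by
  classical
  have hsurj : Function.Surjective (eval u₀ : MvPolynomial κ₂ ℂ →+* ℂ) := fun a => ⟨C a, by simp⟩
  have hsurj2 : Function.Surjective (map (σ := κ₁) (eval u₀ : MvPolynomial κ₂ ℂ →+* ℂ)) :=
    map_surjective _ hsurj
  obtain ⟨𝔪, h𝔪⟩ : ∃ 𝔪 : Ideal (MvPolynomial κ₂ ℂ), 𝔪 = RingHom.ker (eval u₀) := ⟨_, rfl⟩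
  -- the radical
  have hrad : idealOfVars κ₁ (MvPolynomial κ₂ ℂ) ≤ (elimI W ⊔ 𝔪.map C).radical := by
    rw [idealOfVars, Ideal.span_le]
    rintro _ ⟨i, rfl⟩
    have h1 : (X i : MvPolynomial κ₁ ℂ) ∈
        ((elimI W).map (map (σ := κ₁) (eval u₀ : MvPolynomial κ₂ ℂ →+* ℂ))).radical := by
      rw [← vanishingIdeal_zeroLocus_eq_radical (K := ℂ), mem_vI]
      intro z hz
      have h2 : Sum.elim z u₀ ∈ W := by
        rw [zclosed_iff] at hW
        apply hW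
        intro p hp
        rw [← elim_ev_sum]
        have h3 : sumRingEquiv ℂ κ₁ κ₂ p ∈ elimI W := by
          intro z' u' h
          rw [elim_ev_sum]
          exact mem_vI.1 hp _ h
        have h4 := hz _ (Ideal.mem_map_of_mem
          (map (σ := κ₁) (eval u₀ : MvPolynomial κ₂ ℂ →+* ℂ)) h3)
        rw [aeval_eq_eval] at h4
        exact h4
      rw [h0 z h2]
      simp
    obtain ⟨k, hk⟩ := h1
    obtain ⟨F, hF, hFk⟩ := (Ideal.mem_map_iff_of_surjective _ hsurj2).1 hk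
    refine ⟨k, ?_⟩
    have h5 : (X i ^ k - F : MvPolynomial κ₁ (MvPolynomial κ₂ ℂ)) ∈ 𝔪.map C := by
      rw [h𝔪, ← ker_map, RingHom.mem_ker, map_sub, hFk, map_pow, map_X, sub_self]
    have h6 : (X i ^ k : MvPolynomial κ₁ (MvPolynomial κ₂ ℂ)) = F + (X i ^ k - F) := by ring
    rw [h6]
    exact Submodule.add_mem_sup hF h5
  obtain ⟨D, hD⟩ := Ideal.exists_pow_le_of_le_radical_of_fg hrad (idealOfVars_fg κ₁ _)
  refine ⟨D, ?_⟩
  -- the quotient
  let q := Submodule.mkQ ((elimI W).restrictScalars (MvPolynomial κ₂ ℂ))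
  have hle : (elimN κ₁ κ₂ D).map q ≤ 𝔪 • (elimN κ₁ κ₂ D).map q := by
    rw [← Submodule.map_smul'', Submodule.map_le_iff_le_comap, elimN, Submodule.span_le]
    rintro _ ⟨m, hm, rfl⟩
    have h1 : (monomial m 1 : MvPolynomial κ₁ (MvPolynomial κ₂ ℂ)) ∈ elimI W ⊔ 𝔪.map C := by
      apply hD
      rw [monomial_mem_pow_idealOfVars_iff _ _ one_ne_zero]
      exact hm.ge
    obtain ⟨F, hF, Q, hQ, hFQ⟩ := Submodule.mem_sup.1 h1
    have h2 : homogeneousComponent D (monomial m 1 : MvPolynomial κ₁ (MvPolynomial κ₂ ℂ)) =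
        monomial m 1 := by
      rw [homogeneousComponent_of_mem (n := D)
        ((mem_homogeneousSubmodule _ _).2 (isHomogeneous_monomial 1 hm)), if_pos rfl]
    have h3 : homogeneousComponent D Q ∈ 𝔪 • elimN κ₁ κ₂ D := by
      have h4 : Q ∈ 𝔪 • (⊤ : Submodule (MvPolynomial κ₂ ℂ)
          (MvPolynomial κ₁ (MvPolynomial κ₂ ℂ))) := by
        rw [Ideal.smul_top_eq_map]
        exact hQ
      have h5 := Submodule.mem_map_of_mem
        (f := (homogeneousComponent D : MvPolynomial κ₁ (MvPolynomial κ₂ ℂ) →ₗ[MvPolynomial κ₂ ℂ] _))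
        h4
      rw [Submodule.map_smul''] at h5
      refine Submodule.smul_mono le_rfl ?_ h5
      rintro _ ⟨F', _, rfl⟩
      exact elim_hc_mem_N D F'
    have h6 : q (monomial m 1) = q (homogeneousComponent D Q) := by
      rw [← sub_eq_zero, ← map_sub]
      have h7 : (monomial m 1 : MvPolynomial κ₁ (MvPolynomial κ₂ ℂ)) - homogeneousComponent D Q =
          homogeneousComponent D F := by
        rw [← h2, ← map_sub, ← hFQ, add_sub_cancel_right]
      rw [h7, Submodule.mkQ_apply, Submodule.Quotient.mk_eq_zero]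
      exact elim_hc hc hF D
    show q (monomial m 1) ∈ (𝔪 • elimN κ₁ κ₂ D).map q
    rw [h6]
    exact Submodule.mem_map_of_mem h3
  obtain ⟨g, hg1, hg2⟩ := Submodule.exists_sub_one_mem_and_smul_eq_zero_of_fg_of_le_smul 𝔪 _
    ((elim_N_fg D).map q) hle
  refine ⟨g, ?_, ?_⟩
  · rw [h𝔪, RingHom.mem_ker, map_sub, map_one, sub_eq_zero] at hg1
    exact hg1
  · intro i
    have h1 : (X i ^ D : MvPolynomial κ₁ (MvPolynomial κ₂ ℂ)) ∈ elimN κ₁ κ₂ D := by
      rw [X_pow_eq_monomial]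
      exact Submodule.subset_span ⟨_, by simp [Finsupp.degree_single], rfl⟩
    have h2 := hg2 _ (Submodule.mem_map_of_mem h1)
    rw [← map_smul, Submodule.mkQ_apply, Submodule.Quotient.mk_eq_zero] at h2
    exact h2

end Elim

theorem st_ELIM : ST_ELIM := by
  intro κ₁ κ₂ _ _ W hW hc
  rw [zclosed_iff]
  intro u₀ hu₀
  by_contra hn
  have h0 : ∀ z : κ₁ → ℂ, Sum.elim z u₀ ∈ W → z = 0 := by
    intro z hz
    by_contra hz0
    exact hn ⟨z, hz0, hz⟩
  obtain ⟨D, g, hg1, hg2⟩ := elim_nak hW hc u₀ h0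
  have h1 := hu₀ g (by
    rw [mem_vI]
    rintro u ⟨z, hz, hzu⟩
    obtain ⟨i, hi⟩ : ∃ i, z i ≠ 0 := by
      by_contra hcon
      push Not at hcon
      exact hz (funext hcon)
    have h2 := hg2 i z u hzu
    unfold elimEv at h2
    rw [smul_eq_C_mul, map_mul, map_C, map_pow, map_X, map_mul, eval_C, map_pow, eval_X,
      mul_eq_zero] at h2
    rcases h2 with h2 | h2
    · exact h2
    · exact absurd h2 (pow_ne_zero _ hi))
  rw [hg1] at h1
  exact one_ne_zero h1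

end Pool.Agent.Helper87.TC
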